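import Pool.Agent.Y138.KZ.Main
import Pool.Agent.H835R5.T.MV

/-!
MP_d82055_ag, Q1: negative answer over every residue field of characteristic `2`. For every field
`F` of characteristic `2` (perfect or not, finite or not) the ring `A = F[[t]]` is a complete
discrete valuation ring with residue field `F`, and there is an integral smooth projective curve
`X` over `A` (relative dimension `d = 1`; it is the closure of `y² + y = x³`) such that for every
`n` the kernel of `res_n` on `CH_1(X) = H¹(X, O_X^*)` contains a class that is not divisible by `2`
in `CH_1(X)`; hence there is no decreasing filtration with (i) and (ii).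
-/

set_option autoImplicit false

open CategoryTheory AlgebraicGeometry TopologicalSpace Pool.Agent.H835R5

namespace Pool.Agent.Results.MP_d82055_ag.AllFieldsCharTwo

/-- For every field `F` of characteristic two, Kerz's question has a negative answer over the
complete discrete valuation ring `F[[t]]`, already for a curve of good reduction. -/
theorem result (F : Type) [Field F] [CharP F 2] :
    IsDiscreteValuationRing (PowerSeries F) ∧
    Irreducible (PowerSeries.X : PowerSeries F) ∧
    IsAdicComplete (IsLocalRing.maximalIdeal (PowerSeries F)) (PowerSeries F) ∧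
    HenselianLocalRing (PowerSeries F) ∧
    CharP (IsLocalRing.ResidueField (PowerSeries F)) 2 ∧
    Nonempty (IsLocalRing.ResidueField (PowerSeries F) ≃+* F) ∧
    ∃ (X : Scheme.{0}) (f : X ⟶ Spec (.of (PowerSeries F))),
      IsIntegral X ∧ SmoothOfRelativeDimension 1 f ∧ IsProjOver f ∧
      KerNotDivisible f PowerSeries.X 2 ∧ ¬ HasKerzFiltration f PowerSeries.X 2 :=
  ⟨Y138.KZ.taskBase.1, PowerSeries.X_prime.irreducible, Y138.KZ.taskBase.2.1,
    Y138.KZ.taskBase.2.2.1, Y138.KZ.taskBase.2.2.2, ⟨PowerSeries.residueFieldOfPowerSeries⟩,
    Y138.KZ.main Y138.KZ.taskCov2 Y138.KZ.taskSpl (AsmB.taskAsm taskMV)⟩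

end Pool.Agent.Results.MP_d82055_ag.AllFieldsCharTwo
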